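import Pool.Agent.KTB.StmtsKA

/-!
# KTB, row BSA: the unmatched elements of the positive ray and the sum of their norms
-/

set_option autoImplicit false

namespace Pool.Agent.KTB.H47

open Finset
open scoped Classical

variable {ι T : Type} [Fintype ι]

theorem mem_R {D : Dat ι T} {S : Finset ι} {ρ : ι → ℚ} :
    ρ ∈ D.R S ↔ ρ ∈ D.rel ∧ ∀ a, a ∉ S → ρ a = 0 := Iff.rfl

theorem R_mono {D : Dat ι T} {S S' : Finset ι} (h : S' ⊆ S) {ρ : ι → ℚ} (hρ : ρ ∈ D.R S') :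
    ρ ∈ D.R S := ⟨hρ.1, fun a ha => hρ.2 a fun h' => ha (h h')⟩

theorem mem_N {D : Dat ι T} {S : Finset ι} {a : ι} :
    a ∈ D.N S ↔ a ∈ S ∧ ∃ ρ ∈ D.R S, ρ a ≠ 0 := by
  unfold Dat.N
  rw [mem_filter]

theorem mem_N_of {D : Dat ι T} {S : Finset ι} {a : ι} {ρ : ι → ℚ} (hρ : ρ ∈ D.R S)
    (h : ρ a ≠ 0) : a ∈ D.N S := by
  refine mem_N.2 ⟨?_, ρ, hρ, h⟩
  by_contra h'
  exact h (hρ.2 a h')

theorem mem_sp {D : Dat ι T} {S : Finset ι} {t y : ι} :
    y ∈ D.sp S t ↔ y ∈ S ∧ ∃ c : ℚ, 0 < c ∧ ∀ ρ ∈ D.R S, ρ y = c * ρ t := by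
  unfold Dat.sp
  rw [mem_filter]

theorem mem_sm {D : Dat ι T} {S : Finset ι} {t y : ι} :
    y ∈ D.sm S t ↔ y ∈ S ∧ ∃ c : ℚ, 0 < c ∧ ∀ ρ ∈ D.R S, ρ y = -(c * ρ t) := by
  unfold Dat.sm
  rw [mem_filter]

/-- a perfect matching computes sums over the matched set -/
theorem pm_sum {D : Dat ι T} {S : Finset ι} {M : Finset T} (h : D.PM S (D.N S) M)
    (ρ : ι → ℚ) : ∑ a ∈ D.N S, ρ a = ∑ k ∈ M, ∑ a ∈ S, (D.x k a : ℚ) * ρ a := by
  obtain ⟨h1, h2⟩ := h
  have hval : ∀ k ∈ M, ∀ a ∈ S, D.x k a ≠ 0 → D.x k a = 1 ∧ a ∈ D.N S := by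
    intro k hk a ha hne
    obtain ⟨y, hy, y', hy', hc⟩ := h1 k hk
    obtain ⟨-, -, -, e1, e2, h3⟩ := hc
    by_cases hay : a = y
    · subst hay; exact ⟨e1, hy⟩
    · by_cases hay' : a = y'
      · subst hay'; exact ⟨e2, hy'⟩
      · exact absurd (h3 a ha hay hay') hne
  have hNS : D.N S ⊆ S := fun a ha => (mem_N.1 ha).1
  rw [sum_comm]
  have e1 : ∀ a ∈ S, ∑ k ∈ M, (D.x k a : ℚ) * ρ a = if a ∈ D.N S then ρ a else 0 := by
    intro a ha
    by_cases haN : a ∈ D.N S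
    · rw [if_pos haN]
      obtain ⟨k, ⟨hk, hne⟩, huniq⟩ := h2 a haN
      rw [sum_eq_single k]
      · rw [(hval k hk a ha hne).1]; simp
      · intro j hj hjk
        have : D.x j a = 0 := by
          by_contra hja
          exact hjk (huniq j ⟨hj, hja⟩)
        rw [this]; simp
      · intro h; exact absurd hk h
    · rw [if_neg haN]
      refine sum_eq_zero fun k hk => ?_
      have : D.x k a = 0 := by
        by_contra hja
        exact haN (hval k hk a ha hja).2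
      rw [this]; simp
  rw [sum_congr rfl e1, ← sum_filter]
  congr 1
  ext a
  rw [mem_filter]
  exact ⟨fun h => ⟨hNS h, h⟩, fun h => h.2⟩

/-- **BSA** -/
theorem bsa (hIdn : IdnStmt) (hRay : RayStmt) (hPra : PraStmt) : BsaStmt := by
  intro ι T _ D S Ra Rb pa pb fa fb Ma Mb hVa hVb hMa hMb hnpa hnpb t ht
  have hPra' := hPra ι T D S Ra Rb pa pb fa fb Ma Mb hVa hVb hMa hMb hnpa hnpb t ht
  obtain ⟨hRbne, hRayb, -⟩ := hVb
  obtain ⟨-, ⟨sb, hsb, -, -, hsbk⟩, -⟩ := hRay ι T D S Rb pb fb hRayb hRbne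
  obtain ⟨hRbS, hpb, -⟩ := hRayb
  have hpt : 0 < pb t := (hpb t ht).1
  obtain ⟨ρ0, hρ0, r0, hr0, hρr⟩ := hnpa
  have hρ0S : ρ0 ∈ D.R S := R_mono sdiff_subset hρ0
  have hsb0 : sb ρ0 ≠ 0 := by
    intro h
    rw [hsb ρ0 hρ0S r0 hr0, h, mul_zero] at hρr
    exact hρr rfl
  -- the coordinates are nonempty
  obtain ⟨k0, -⟩ := hMa.2 r0 (mem_N_of hρ0 hρr)
  -- the normalised relation
  obtain ⟨ρ, hρ, hρa, hsρ⟩ : ∃ ρ : ι → ℚ, ρ ∈ D.R S ∧ ρ ∈ D.R (S \ Ra) ∧ sb ρ = 1 := by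
    refine ⟨(sb ρ0)⁻¹ • ρ0, (D.R S).smul_mem _ hρ0S, (D.R (S \ Ra)).smul_mem _ hρ0, ?_⟩
    rw [map_smul, smul_eq_mul, inv_mul_cancel₀ hsb0]
  have hρt : ρ t = pb t := by rw [hsb ρ hρ t ht, hsρ, mul_one]
  -- choice of the matching
  have hch : ∀ W : ι, ∃ (k : T) (A : ι), W ∈ D.sm S t →
      k ∈ Ma ∧ A ∈ D.sp S t ∧ D.Clean S k W A := by
    intro W
    by_cases hW : W ∈ D.sm S t
    · obtain ⟨k, hk, A, hA, hc⟩ := hPra' W hW
      exact ⟨k, A, fun _ => ⟨hk, hA, hc⟩⟩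
    · exact ⟨k0, W, fun h => absurd h hW⟩
  choose kk π hkπ using hch
  have hspN : ∀ A ∈ D.sp S t, A ∈ D.N (S \ Ra) := by
    intro A hA
    obtain ⟨-, c, hc, hcρ⟩ := mem_sp.1 hA
    refine mem_N_of hρa ?_
    rw [hcρ ρ hρ, hρt]
    exact (mul_pos hc hpt).ne'
  have hinj : Set.InjOn π (D.sm S t : Set ι) := by
    intro W hW W' hW' e
    obtain ⟨hk, hA, hc⟩ := hkπ W (mem_coe.1 hW)
    obtain ⟨hk', hA', hc'⟩ := hkπ W' (mem_coe.1 hW')
    rw [← e] at hA' hc'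
    obtain ⟨-, -, -, -, e2, h3⟩ := hc
    obtain ⟨hW'S, -, hne', e1', e2', -⟩ := hc'
    have hkk : kk W = kk W' := by
      refine (hMa.2 (π W) (hspN _ hA)).unique ⟨hk, ?_⟩ ⟨hk', ?_⟩
      · rw [e2]; exact one_ne_zero
      · rw [e2']; exact one_ne_zero
    by_contra hne
    have := h3 W' hW'S (Ne.symm hne) hne'
    rw [hkk, e1'] at this
    exact one_ne_zero this
  refine ⟨D.sp S t \ (D.sm S t).image π, π, kk, sdiff_subset, ?_, fun W hW => (hkπ W hW).2.2, ?_⟩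
  · have himg : (D.sm S t).image π ⊆ D.sp S t := by
      intro A hA
      obtain ⟨W, hW, rfl⟩ := mem_image.1 hA
      exact (hkπ W hW).2.1
    rw [Finset.sdiff_sdiff_eq_self himg, coe_image]
    exact hinj.bijOn_image
  · intro q hq
    have himg : (D.sm S t).image π ⊆ D.sp S t := by
      intro A hA
      obtain ⟨W, hW, rfl⟩ := mem_image.1 hA
      exact (hkπ W hW).2.1
    -- sum over everything
    have hsumS : ∑ a ∈ S, ρ a = 0 := by
      have e1 : ∑ a ∈ D.N (S \ Ra), ρ a = 0 := by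
        rw [pm_sum hMa ρ]
        exact sum_eq_zero fun k _ => (hIdn ι T D (S \ Ra)).2.1 ρ hρa k
      rw [← e1]
      refine (sum_subset (fun a ha => sdiff_subset (mem_N.1 ha).1) fun a _ ha => ?_).symm
      by_contra hne
      exact ha (mem_N_of hρa hne)
    have hsumN : ∑ a ∈ D.N (S \ Rb), ρ a = -∑ k ∈ Mb, ∑ r ∈ Rb, (D.x k r : ℚ) * pb r := by
      rw [pm_sum hMb ρ, ← sum_neg_distrib]
      refine sum_congr rfl fun k _ => ?_
      have e1 := (hIdn ι T D S).2.1 ρ hρ k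
      rw [← sum_sdiff hRbS] at e1
      have e2 : ∑ r ∈ Rb, (D.x k r : ℚ) * ρ r = ∑ r ∈ Rb, (D.x k r : ℚ) * pb r := by
        refine sum_congr rfl fun r hr => ?_
        rw [hsb ρ hρ r hr, hsρ, mul_one]
      rw [e2] at e1
      linarith
    -- the three parts
    have hmul : ∀ a ∈ S, a ∉ D.N (S \ Rb) → ∀ ρ' ∈ D.R S, ρ' a = (ρ a / pb t) * ρ' t := by
      intro a _ haN ρ' hρ'
      have e1 : ρ' - sb ρ' • ρ ∈ D.R S := (D.R S).sub_mem hρ' ((D.R S).smul_mem _ hρ)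
      have e2 : ρ' - sb ρ' • ρ ∈ D.R (S \ Rb) := by
        rw [hsbk _ e1, map_sub, map_smul, hsρ, smul_eq_mul, mul_one, sub_self]
      have e3 : (ρ' - sb ρ' • ρ) a = 0 := by
        by_contra hne
        exact haN (mem_N_of e2 hne)
      have e4 : ρ' a = sb ρ' * ρ a := by
        have : ρ' a - sb ρ' * ρ a = 0 := e3
        linarith
      rw [e4, hsb ρ' hρ' t ht]
      field_simp
    have hvan : ∀ ρ' ∈ D.R (S \ Rb), ρ' t = 0 := by
      intro ρ' hρ'
      have e1 : ρ' ∈ D.R S := R_mono sdiff_subset hρ'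
      rw [hsb ρ' e1 t ht, (hsbk ρ' e1).1 hρ', mul_zero]
    have hspnN : ∀ a ∈ D.sp S t, a ∉ D.N (S \ Rb) := by
      intro a ha haN
      obtain ⟨-, c, -, hc⟩ := mem_sp.1 ha
      obtain ⟨-, ρ', hρ', hne⟩ := mem_N.1 haN
      rw [hc ρ' (R_mono sdiff_subset hρ'), hvan ρ' hρ', mul_zero] at hne
      exact hne rfl
    have hsmnN : ∀ a ∈ D.sm S t, a ∉ D.N (S \ Rb) := by
      intro a ha haN
      obtain ⟨-, c, -, hc⟩ := mem_sm.1 ha
      obtain ⟨-, ρ', hρ', hne⟩ := mem_N.1 haN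
      rw [hc ρ' (R_mono sdiff_subset hρ'), hvan ρ' hρ', mul_zero, neg_zero] at hne
      exact hne rfl
    have hdisj : ∀ a ∈ D.sp S t, a ∉ D.sm S t := by
      intro a ha ha'
      obtain ⟨-, c, hc0, hc⟩ := mem_sp.1 ha
      obtain ⟨-, c', hc0', hc'⟩ := mem_sm.1 ha'
      have e1 := hc ρ hρ
      have e2 := hc' ρ hρ
      rw [hρt] at e1 e2
      have e3 := mul_pos hc0 hpt
      have e4 := mul_pos hc0' hpt
      linarith
    have hsplit : ∑ a ∈ S, ρ a = ∑ a ∈ D.N (S \ Rb), ρ a +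
        (∑ a ∈ D.sp S t, ρ a + ∑ a ∈ D.sm S t, ρ a) := by
      have d1 : Disjoint (D.sp S t) (D.sm S t) := disjoint_left.2 hdisj
      have d2 : Disjoint (D.N (S \ Rb)) (D.sp S t ∪ D.sm S t) := by
        refine disjoint_left.2 fun a ha ha' => ?_
        rcases mem_union.1 ha' with h | h
        · exact hspnN a h ha
        · exact hsmnN a h ha
      rw [← sum_union d1, ← sum_union d2]
      refine (sum_subset ?_ ?_).symm
      · intro a ha
        rcases mem_union.1 ha with h | h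
        · exact sdiff_subset (mem_N.1 h).1
        · rcases mem_union.1 h with h | h
          · exact (mem_sp.1 h).1
          · exact (mem_sm.1 h).1
      · intro a haS ha
        have h1 : a ∉ D.N (S \ Rb) := fun h => ha (mem_union_left _ h)
        have h2 : a ∉ D.sp S t := fun h => ha (mem_union_right _ (mem_union_left _ h))
        have h3 : a ∉ D.sm S t := fun h => ha (mem_union_right _ (mem_union_right _ h))
        have hm := hmul a haS h1
        rcases lt_trichotomy (ρ a) 0 with h | h | h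
        · exfalso
          refine h3 (mem_sm.2 ⟨haS, -(ρ a) / pb t, div_pos (neg_pos.2 h) hpt, fun ρ' hρ' => ?_⟩)
          rw [hm ρ' hρ']
          ring
        · exact h
        · exfalso
          exact h2 (mem_sp.2 ⟨haS, ρ a / pb t, div_pos h hpt, hm⟩)
    have hspU : ∑ a ∈ D.sp S t, ρ a =
        ∑ a ∈ D.sp S t \ (D.sm S t).image π, ρ a + ∑ W ∈ D.sm S t, ρ (π W) := by
      rw [← sum_sdiff himg, sum_image hinj]
    have hpair : ∑ W ∈ D.sm S t, ρ (π W) + ∑ a ∈ D.sm S t, ρ a = 0 := by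
      rw [← sum_add_distrib]
      refine sum_eq_zero fun W hW => ?_
      have := ((hIdn ι T D S).2.2.2.2 (kk W) W (π W) (hkπ W hW).2.2).2 ρ hρ
      linarith
    have hq' : ∑ u ∈ D.sp S t \ (D.sm S t).image π, q u =
        ∑ u ∈ D.sp S t \ (D.sm S t).image π, ρ u := by
      refine sum_congr rfl fun u hu => ?_
      have e1 := hq u (sdiff_subset hu) ρ hρ
      rw [hρt, mul_comm] at e1
      exact (mul_right_cancel₀ hpt.ne' e1).symm
    rw [hq']
    linarith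

end Pool.Agent.KTB.H47
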